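import Pool.Agent.Lib.MP_0e3b4a_gt.Iface2

/-! # CUBN: the planar problem when the cubic form does not vanish -/

set_option autoImplicit false

namespace Pool.Agent.CutLoci.H83

open MeasureTheory Set Filter Topology

/-! ## Linear algebra in the plane -/

/-- The determinant of two vectors. -/
def crs (v w : EE 2) : ℝ := v 0 * w 1 - v 1 * w 0

theorem crs_self (v : EE 2) : crs v v = 0 := by
  unfold crs
  ring

theorem crs_smul_left (c : ℝ) (v w : EE 2) : crs (c • v) w = c * crs v w := by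
  unfold crs
  simp
  ring

theorem cramer (v p w : EE 2) : crs v p • w = crs w p • v + crs v w • p := by
  unfold crs
  ext i
  fin_cases i <;> simp <;> ring

theorem exists_smul {v p : EE 2} (hp : p ≠ 0) (h : crs v p = 0) : ∃ c : ℝ, v = c • p := by
  unfold crs at h
  by_cases h0 : p 0 = 0
  · have h1 : p 1 ≠ 0 := by
      intro h1
      apply hp
      ext i
      fin_cases i
      · exact h0
      · exact h1
    refine ⟨v 1 / p 1, ?_⟩
    have h2 : v 0 = 0 := by
      rw [h0, mul_zero, sub_zero] at h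
      rcases mul_eq_zero.1 h with h | h
      · exact h
      · exact absurd h h1
    ext i
    fin_cases i
    · simp [h2, h0]
    · simp [h1]
  · refine ⟨v 0 / p 0, ?_⟩
    ext i
    fin_cases i
    · simp [h0]
    · have h2 : v 1 = v 0 * p 1 / p 0 := by
        field_simp
        linarith
      simp only [Fin.mk_one, PiLp.smul_apply, smul_eq_mul]
      rw [h2]
      ring

theorem zero_of_two {F : Type*} [AddCommGroup F] [Module ℝ F] {S : EE 2 →ₗ[ℝ] F} {v p : EE 2}
    (hv : S v = 0) (hp : S p = 0) (h : crs v p ≠ 0) : S = 0 := by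
  ext w
  have h1 : crs v p • S w = 0 := by
    rw [← map_smul, cramer v p w, map_add, map_smul, map_smul, hv, hp, smul_zero, smul_zero,
      add_zero]
  rcases smul_eq_zero.1 h1 with h2 | h2
  · exact absurd h2 h
  · rw [h2]
    rfl

/-- The kernel of a nonzero linear map is contained in a line. -/
theorem exists_line {F : Type*} [AddCommGroup F] [Module ℝ F] (S : EE 2 →ₗ[ℝ] F) (hS : S ≠ 0) :
    ∃ q : EE 2, q ≠ 0 ∧ ∀ v, S v = 0 → ∃ c : ℝ, v = c • q := by
  by_cases h : ∃ q, q ≠ 0 ∧ S q = 0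
  · obtain ⟨q, hq, hSq⟩ := h
    refine ⟨q, hq, fun v hv => exists_smul hq ?_⟩
    by_contra hne
    exact hS (zero_of_two hv hSq hne)
  · push Not at h
    refine ⟨EuclideanSpace.single 0 1, ?_, ?_⟩
    · intro h0
      have := congrArg (fun v : EE 2 => v 0) h0
      simp at this
    · intro v hv
      refine ⟨0, ?_⟩
      by_contra hne
      rw [zero_smul] at hne
      exact h v hne hv

/-! ## The directions -/

/-- Representatives of the directions. -/
noncomputable def dir : Option ℝ → EE 2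
  | none => EuclideanSpace.single 0 1
  | some r => r • EuclideanSpace.single 0 1 + EuclideanSpace.single 1 1

theorem crs_dir {i j : Option ℝ} (h : i ≠ j) : crs (dir i) (dir j) ≠ 0 := by
  cases i with
  | none =>
    cases j with
    | none => exact absurd rfl h
    | some r => simp [crs, dir]
  | some r =>
    cases j with
    | none => simp [crs, dir]
    | some r' =>
      have h1 : r - r' ≠ 0 := by
        intro h2
        apply h
        rw [sub_eq_zero.1 h2]
      simpa [crs, dir] using h1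

theorem dir_ne_zero (i : Option ℝ) : dir i ≠ 0 := by
  intro h0
  cases i with
  | none =>
    have := congrArg (fun v : EE 2 => v 0) h0
    simp [dir] at this
  | some r =>
    have := congrArg (fun v : EE 2 => v 1) h0
    simp [dir] at this

theorem exists_dir (v : EE 2) : ∃ (i : Option ℝ) (c : ℝ), v = c • dir i := by
  by_cases h : v 1 = 0
  · refine ⟨none, v 0, ?_⟩
    ext i
    fin_cases i
    · simp [dir]
    · simp [dir, h]
  · refine ⟨some (v 0 / v 1), v 1, ?_⟩
    ext i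
    fin_cases i
    · simp [dir]
      field_simp
    · simp [dir]

/-- A cubic form which does not vanish has finitely many zeros up to proportionality. -/
theorem finite_dirs (T : EE 2 →ₗ[ℝ] EE 2 →ₗ[ℝ] EE 2 →ₗ[ℝ] ℝ) (hT : ∃ v, T v v v ≠ 0) :
    {i : Option ℝ | T (dir i) (dir i) (dir i) = 0}.Finite := by
  set e0 : EE 2 := EuclideanSpace.single 0 1 with he0
  set e1 : EE 2 := EuclideanSpace.single 1 1 with he1
  let q : Polynomial ℝ := Polynomial.C (T e0 e0 e0) * Polynomial.X ^ 3 +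
    Polynomial.C (T e1 e0 e0 + T e0 e1 e0 + T e0 e0 e1) * Polynomial.X ^ 2 +
    Polynomial.C (T e1 e1 e0 + T e1 e0 e1 + T e0 e1 e1) * Polynomial.X + Polynomial.C (T e1 e1 e1)
  have hq : ∀ r : ℝ, q.eval r = T (dir (some r)) (dir (some r)) (dir (some r)) := by
    intro r
    simp only [q, dir, ← he0, ← he1, Polynomial.eval_add, Polynomial.eval_mul,
      Polynomial.eval_C, Polynomial.eval_pow, Polynomial.eval_X, map_add, map_smul,
      LinearMap.add_apply, LinearMap.smul_apply, smul_eq_mul]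
    ring
  have hq0 : q ≠ 0 := by
    intro h0
    have hz : ∀ r : ℝ, T (dir (some r)) (dir (some r)) (dir (some r)) = 0 := by
      intro r
      rw [← hq, h0, Polynomial.eval_zero]
    have h3 : T e0 e0 e0 = 0 := by
      have h4 : q.coeff 3 = T e0 e0 e0 := by
        simp only [q, Polynomial.coeff_add, Polynomial.coeff_C_mul, Polynomial.coeff_X_pow,
          Polynomial.coeff_X, Polynomial.coeff_C]
        norm_num
      rw [← h4, h0, Polynomial.coeff_zero]
    obtain ⟨v, hv⟩ := hT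
    apply hv
    obtain ⟨i, c, rfl⟩ := exists_dir v
    have h5 : T (dir i) (dir i) (dir i) = 0 := by
      cases i with
      | none => exact h3
      | some r => exact hz r
    simp [h5]
  have hfin : {r : ℝ | q.IsRoot r}.Finite := by
    refine (q.roots.toFinset.finite_toSet).subset ?_
    intro r hr
    rw [Finset.mem_coe, Multiset.mem_toFinset, Polynomial.mem_roots hq0]
    exact hr
  refine ((hfin.image some).insert none).subset ?_
  intro i hi
  cases i with
  | none => exact Or.inl rfl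
  | some r =>
    right
    refine ⟨r, ?_, rfl⟩
    change q.eval r = 0
    rw [hq]
    exact hi

/-! ## Integrals in a line -/

theorem crs_integral {u : ℝ → EE 2} {a b : ℝ} (hu : IntervalIntegrable u volume a b) (p : EE 2) :
    crs (∫ t in a..b, u t) p = ∫ t in a..b, crs (u t) p := by
  let L : EE 2 →ₗ[ℝ] ℝ :=
    { toFun := fun v => crs v p
      map_add' := fun v w => by
        unfold crs
        simp
        ring
      map_smul' := fun c v => crs_smul_left c v p }
  exact (ContinuousLinearMap.intervalIntegral_comp_comm (LinearMap.toContinuousLinearMap L) hu).symm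

theorem integral_mem_line {u : ℝ → EE 2} {a b : ℝ} (hab : a ≤ b)
    (hu : IntervalIntegrable u volume a b) {p : EE 2} (hp : p ≠ 0)
    (h : ∀ᵐ t ∂(volume.restrict (Ioc a b)), ∃ c : ℝ, u t = c • p) :
    ∃ c : ℝ, ∫ t in a..b, u t = c • p := by
  apply exists_smul hp
  rw [crs_integral hu, intervalIntegral.integral_of_le hab]
  rw [show (0 : ℝ) = ∫ _ in Ioc a b, (0 : ℝ) by simp]
  refine integral_congr_ae ?_
  filter_upwards [h] with t ht
  obtain ⟨c, hc⟩ := ht
  rw [hc, crs_smul_left, crs_self, mul_zero]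

/-! ## One piece -/

section piece

variable {u : ℝ → EE 2} {S : ℝ → (EE 2 →ₗ[ℝ] EE 2 →ₗ[ℝ] ℝ)}
  {T : EE 2 →ₗ[ℝ] EE 2 →ₗ[ℝ] EE 2 →ₗ[ℝ] ℝ}

/-- On an interval where `S` does not vanish, `u` has a constant direction, which is the kernel
of `S`. -/
theorem piece (hS : ∀ a b, Continuous fun t => S t a b) (hT : ∃ v, T v v v ≠ 0)
    (hu0 : ∀ᵐ t ∂(volume.restrict (Ioc (0 : ℝ) 1)), u t ≠ 0)
    (hcub : ∀ᵐ t ∂(volume.restrict (Ioc (0 : ℝ) 1)), T (u t) (u t) (u t) = 0)
    (hker : ∀ᵐ t ∂(volume.restrict (Ioc (0 : ℝ) 1)), S t (u t) = 0)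
    {a b : ℝ} (ha : 0 ≤ a) (hab : a < b) (hb : b ≤ 1) {I : Set ℝ} (hI : IsPreconnected I)
    (h1 : Ioo a b ⊆ I) (h2 : I ⊆ Icc a b) (hne : ∀ t ∈ I, S t ≠ 0) :
    ∃ p : EE 2, p ≠ 0 ∧ (∀ t ∈ I, S t p = 0) ∧
      ∀ᵐ t ∂(volume.restrict (Ioc a b)), ∃ c : ℝ, u t = c • p := by
  classical
  have hsub : Ioc a b ⊆ Ioc (0 : ℝ) 1 := Ioc_subset_Ioc ha hb
  have hu0' := ae_restrict_of_ae_restrict_of_subset hsub hu0
  have hcub' := ae_restrict_of_ae_restrict_of_subset hsub hcub
  have hker' := ae_restrict_of_ae_restrict_of_subset hsub hker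
  let P : Finset (Option ℝ) := (finite_dirs T hT).toFinset
  let C : Option ℝ → Set ℝ := fun i => {t | S t (dir i) = 0}
  have hC : ∀ i, IsClosed (C i) := by
    intro i
    have : C i = ⋂ b : EE 2, {t | S t (dir i) b = 0} := by
      ext t
      simp only [C, Set.mem_ofPred_eq, Set.mem_iInter]
      constructor
      · intro h b
        rw [h]
        rfl
      · intro h
        ext b
        exact h b
    rw [this]
    exact isClosed_iInter fun b => isClosed_eq (hS _ _) continuous_const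
  have hCf : ∀ Q : Finset (Option ℝ), IsClosed (⋃ i ∈ Q, C i) := fun Q =>
    Q.finite_toSet.isClosed_biUnion fun i _ => hC i
  -- almost every point is in one of the closed sets
  have hae : ∀ᵐ t ∂(volume.restrict (Ioc a b)), t ∈ ⋃ i ∈ P, C i := by
    filter_upwards [hu0', hcub', hker'] with t t1 t2 t3
    obtain ⟨i, c, hc⟩ := exists_dir (u t)
    have hc0 : c ≠ 0 := by
      rintro rfl
      rw [zero_smul] at hc
      exact t1 hc
    have hi : T (dir i) (dir i) (dir i) = 0 := by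
      rw [hc] at t2
      simp only [map_smul, LinearMap.smul_apply, smul_eq_mul, mul_eq_zero] at t2
      tauto
    have hSi : S t (dir i) = 0 := by
      rw [hc, map_smul] at t3
      rcases smul_eq_zero.1 t3 with h | h
      · exact absurd h hc0
      · exact h
    simp only [Set.mem_iUnion]
    exact ⟨i, by
      rw [Set.Finite.mem_toFinset]
      exact hi, hSi⟩
  have hIoo : Ioo a b ⊆ ⋃ i ∈ P, C i := by
    intro t ht
    by_contra hcon
    have hopen : IsOpen (Ioo a b ∩ (⋃ i ∈ P, C i)ᶜ) := isOpen_Ioo.inter (hCf P).isOpen_compl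
    have hzero : volume (Ioo a b ∩ (⋃ i ∈ P, C i)ᶜ) = 0 := by
      rw [ae_iff, Measure.restrict_apply₀'] at hae
      · refine measure_mono_null ?_ hae
        rintro s ⟨hs1, hs2⟩
        exact ⟨hs2, Ioo_subset_Ioc_self hs1⟩
      · exact measurableSet_Ioc.nullMeasurableSet
    have hempty := (hopen.measure_eq_zero_iff (volume : Measure ℝ)).1 hzero
    have : t ∈ Ioo a b ∩ (⋃ i ∈ P, C i)ᶜ := ⟨ht, hcon⟩
    rw [hempty] at this
    exact this
  have hIsub : I ⊆ ⋃ i ∈ P, C i := by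
    refine h2.trans ?_
    rw [← closure_Ioo hab.ne]
    exact closure_minimal hIoo (hCf P)
  -- the piece of one point
  have hmid : (a + b) / 2 ∈ Ioo a b := ⟨by linarith, by linarith⟩
  obtain ⟨i₀, hi₀P, hi₀⟩ : ∃ i ∈ P, (a + b) / 2 ∈ C i := by
    have := hIoo hmid
    simp only [Set.mem_iUnion] at this
    obtain ⟨i, hi, h⟩ := this
    exact ⟨i, hi, h⟩
  have hall : ∀ t ∈ I, t ∈ C i₀ := by
    intro t ht
    by_contra hcon
    have hB : t ∈ ⋃ i ∈ P.erase i₀, C i := by
      have := hIsub ht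
      simp only [Set.mem_iUnion] at this ⊢
      obtain ⟨i, hi, h⟩ := this
      refine ⟨i, Finset.mem_erase.2 ⟨?_, hi⟩, h⟩
      rintro rfl
      exact hcon h
    have hcov : I ⊆ C i₀ ∪ ⋃ i ∈ P.erase i₀, C i := by
      intro s hs
      by_cases hs0 : s ∈ C i₀
      · exact Or.inl hs0
      · right
        have := hIsub hs
        simp only [Set.mem_iUnion] at this ⊢
        obtain ⟨i, hi, h⟩ := this
        refine ⟨i, Finset.mem_erase.2 ⟨?_, hi⟩, h⟩
        rintro rfl
        exact hs0 h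
    obtain ⟨s, hsI, hs1, hs2⟩ := isPreconnected_closed_iff.1 hI (C i₀) (⋃ i ∈ P.erase i₀, C i)
      (hC i₀) (hCf _) hcov ⟨_, h1 hmid, hi₀⟩ ⟨t, ht, hB⟩
    simp only [Set.mem_iUnion] at hs2
    obtain ⟨j, hj, hsj⟩ := hs2
    have hij : i₀ ≠ j := (Finset.mem_erase.1 hj).1.symm
    exact hne s hsI (zero_of_two hs1 hsj (crs_dir hij))
  refine ⟨dir i₀, dir_ne_zero i₀, hall, ?_⟩
  have hIoo_ae : ∀ᵐ t ∂(volume.restrict (Ioc a b)), t ∈ Ioo a b := by
    rw [← Measure.restrict_congr_set (Ioo_ae_eq_Ioc (a := a) (b := b))]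
    exact ae_restrict_mem measurableSet_Ioo
  filter_upwards [hker', hIoo_ae] with t t1 t2
  apply exists_smul (dir_ne_zero i₀)
  by_contra hcrs
  exact hne t (h1 t2) (zero_of_two t1 (hall t (h1 t2)) hcrs)

end piece

/-! ## The theorem -/

theorem cubn (hDetz : DetzStatement) : CubnStatement := by
  classical
  intro u S0 T hint hu0 hS0 hTs hcub hE hNB
  obtain ⟨-, hD2, hD3⟩ := hDetz u S0 T hint hu0 hS0 hTs hE
  have hT0 : T ≠ 0 := by
    rintro rfl
    obtain ⟨v, hv⟩ := hcub
    exact hv rfl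
  have hii : ∀ a b : ℝ, 0 ≤ a → a ≤ b → b ≤ 1 → IntervalIntegrable u volume a b := by
    intro a b ha hab hb
    exact (intervalIntegrable_iff_integrableOn_Ioc_of_le hab).2
      (hint.mono_set (Ioc_subset_Ioc ha hb))
  set x : ℝ → EE 2 := fun t => ∫ s in (0 : ℝ)..t, u s with hxdef
  have hx : ContinuousOn x (Icc 0 1) := by
    have h1 : IntegrableOn u (uIcc 0 1) := by
      rw [uIcc_of_le zero_le_one, integrableOn_Icc_iff_integrableOn_Ioc]
      exact hint
    have h2 := intervalIntegral.continuousOn_primitive_interval (μ := volume) h1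
    rwa [uIcc_of_le zero_le_one] at h2
  let X : ℝ → EE 2 := IccExtend (zero_le_one (α := ℝ)) (fun t : Icc (0 : ℝ) 1 => x t)
  have hX : Continuous X := Continuous.Icc_extend' (continuousOn_iff_continuous_domRestrict.1 hx)
  have hXeq : ∀ t ∈ Icc (0 : ℝ) 1, X t = x t := fun t ht => IccExtend_of_mem _ _ ht
  let S : ℝ → (EE 2 →ₗ[ℝ] EE 2 →ₗ[ℝ] ℝ) := fun t => S0 + T (X t)
  have hS : ∀ a b, Continuous fun t => S t a b := by
    intro a b
    let L : EE 2 →ₗ[ℝ] ℝ :=
      { toFun := fun c => T c a b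
        map_add' := fun c c' => by simp
        map_smul' := fun r c => by simp }
    have hL : Continuous L := L.continuous_of_finiteDimensional
    have h1 : (fun t => S t a b) = fun t => S0 a b + L (X t) := rfl
    rw [h1]
    exact continuous_const.add (hL.comp hX)
  have hmem : ∀ᵐ t ∂(volume.restrict (Ioc (0 : ℝ) 1)), t ∈ Ioc (0 : ℝ) 1 :=
    ae_restrict_mem measurableSet_Ioc
  have hker : ∀ᵐ t ∂(volume.restrict (Ioc (0 : ℝ) 1)), S t (u t) = 0 := by
    filter_upwards [hE, hmem] with t ht htm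
    ext b
    change S0 (u t) b + T (X t) (u t) b = 0
    rw [hXeq t (Ioc_subset_Icc_self htm)]
    exact ht b
  have hdiff : ∀ a b : ℝ, 0 ≤ a → a ≤ b → b ≤ 1 → S b = S a + T (∫ s in a..b, u s) := by
    intro a b ha hab hb
    have h1 : x b = x a + ∫ s in a..b, u s := by
      rw [hxdef]
      simp only
      rw [intervalIntegral.integral_add_adjacent_intervals (hii 0 a le_rfl ha (hab.trans hb))
        (hii a b ha hab hb)]
    change S0 + T (X b) = S0 + T (X a) + T (∫ s in a..b, u s)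
    rw [hXeq b ⟨ha.trans hab, hb⟩, hXeq a ⟨ha, hab.trans hb⟩, h1, map_add, add_assoc]
  -- the zero set
  let Z : Set ℝ := {t | t ∈ Icc (0 : ℝ) 1 ∧ S t = 0}
  have hZc : IsClosed Z := by
    have : Z = Icc (0 : ℝ) 1 ∩ ⋂ a : EE 2, ⋂ b : EE 2, {t | S t a b = 0} := by
      ext t
      simp only [Z, Set.mem_inter_iff, Set.mem_ofPred_eq, Set.mem_iInter]
      refine and_congr_right fun _ => ⟨fun h a b => by rw [h]; rfl, fun h => ?_⟩
      ext a b
      exact h a b
    rw [this]
    exact isClosed_Icc.inter (isClosed_iInter fun a => isClosed_iInter fun b =>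
      isClosed_eq (hS a b) continuous_const)
  have hZcomp : IsCompact Z := isCompact_Icc.of_isClosed_subset hZc fun t ht => ht.1
  have hpiece : ∀ {a b : ℝ}, 0 ≤ a → a < b → b ≤ 1 → ∀ {I : Set ℝ}, IsPreconnected I →
      Ioo a b ⊆ I → I ⊆ Icc a b → (∀ t ∈ I, S t ≠ 0) →
      ∃ p : EE 2, p ≠ 0 ∧ (∀ t ∈ I, S t p = 0) ∧
        ∀ᵐ t ∂(volume.restrict (Ioc a b)), ∃ c : ℝ, u t = c • p :=
    fun ha hab hb _ hI h1 h2 hne => piece hS hcub hu0 hD2 hker ha hab hb hI h1 h2 hne
  have key : ∀ a ∈ Z, ∀ b ∈ Z, ∀ c ∈ Ioo a b, c ∈ Z := by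
    intro a haZ b hbZ c hc
    by_contra hcZ
    have h0c : 0 ≤ c := haZ.1.1.trans hc.1.le
    have hc1 : c ≤ 1 := hc.2.le.trans hbZ.1.2
    have hA : IsCompact (Z ∩ Icc a c) := hZcomp.inter_right isClosed_Icc
    have hAne : (Z ∩ Icc a c).Nonempty := ⟨a, haZ, le_rfl, hc.1.le⟩
    have hB : IsCompact (Z ∩ Icc c b) := hZcomp.inter_right isClosed_Icc
    have hBne : (Z ∩ Icc c b).Nonempty := ⟨b, hbZ, hc.2.le, le_rfl⟩
    obtain ⟨a'Z, a'm⟩ := hA.sSup_mem hAne
    obtain ⟨b'Z, b'm⟩ := hB.sInf_mem hBne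
    set a' := sSup (Z ∩ Icc a c) with ha'
    set b' := sInf (Z ∩ Icc c b) with hb'
    have a'c : a' < c := lt_of_le_of_ne a'm.2 fun h => hcZ (h ▸ a'Z)
    have cb' : c < b' := lt_of_le_of_ne b'm.1 fun h => hcZ (h ▸ b'Z)
    have hne : ∀ t ∈ Ioo a' b', S t ≠ 0 := by
      intro t ht h0
      have htZ : t ∈ Z := ⟨⟨a'Z.1.1.trans ht.1.le, ht.2.le.trans b'Z.1.2⟩, h0⟩
      rcases le_total t c with h | h
      · have : t ≤ a' := le_csSup hA.bddAbove ⟨htZ, a'm.1.trans ht.1.le, h⟩
        exact absurd ht.1 (not_lt.2 this)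
      · have : b' ≤ t := csInf_le hB.bddBelow ⟨htZ, h, ht.2.le.trans b'm.2⟩
        exact absurd ht.2 (not_lt.2 this)
    obtain ⟨p, hp, hpS, hpu⟩ := hpiece a'Z.1.1 (a'c.trans cb') b'Z.1.2 isPreconnected_Ioo
      le_rfl Ioo_subset_Icc_self hne
    obtain ⟨θ, hθ⟩ := integral_mem_line (a'c.trans cb').le
      (hii a' b' a'Z.1.1 (a'c.trans cb').le b'Z.1.2) hp hpu
    have hpu' : ∀ᵐ t ∂(volume.restrict (Ioc a' c)), ∃ c : ℝ, u t = c • p :=
      ae_restrict_of_ae_restrict_of_subset (Ioc_subset_Ioc le_rfl cb'.le) hpu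
    obtain ⟨η, hη⟩ := integral_mem_line a'c.le (hii a' c a'Z.1.1 a'c.le hc1) hp hpu'
    have hTp : T p ≠ 0 := by
      intro h
      have h1 := hdiff a' c a'Z.1.1 a'c.le hc1
      rw [a'Z.2, hη, map_smul, h, smul_zero, add_zero] at h1
      exact hcZ ⟨⟨h0c, hc1⟩, h1⟩
    have h1 := hdiff a' b' a'Z.1.1 (a'c.trans cb').le b'Z.1.2
    rw [a'Z.2, b'Z.2, hθ, map_smul, zero_add] at h1
    rcases smul_eq_zero.1 h1.symm with h | h
    · apply hNB a' b' p a'Z.1.1 (a'c.trans cb') b'Z.1.2 hpu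
      rw [hθ, h, zero_smul]
    · exact hTp h
  have htriv : ∀ (a : ℝ) (p : EE 2), ∀ᵐ t ∂(volume.restrict (Ioc a a)), ∃ c : ℝ, u t = c • p := by
    intro a p
    simp
  rcases Z.eq_empty_or_nonempty with hZ | hZ
  · obtain ⟨p, hp, hpS, hpu⟩ := hpiece le_rfl zero_lt_one le_rfl isPreconnected_Icc
      Ioo_subset_Icc_self le_rfl (fun t ht h0 => by
        have : t ∈ Z := ⟨ht, h0⟩
        rw [hZ] at this
        exact this)
    exact ⟨1, 1, p, p, zero_le_one, le_rfl, le_rfl, hpu, htriv 1 p, htriv 1 p⟩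
  obtain ⟨q, hq, hqT⟩ := exists_line (F := EE 2 →ₗ[ℝ] EE 2 →ₗ[ℝ] ℝ) T hT0
  have hαZ := hZcomp.sInf_mem hZ
  have hβZ := hZcomp.sSup_mem hZ
  set α := sInf Z with hα
  set β := sSup Z with hβ
  have hαβ : α ≤ β := csInf_le_csSup hZ hZcomp.bddBelow hZcomp.bddAbove
  have hmidZ : ∀ t ∈ Icc α β, t ∈ Z := by
    intro t ht
    rcases ht.1.eq_or_lt with h | h
    · exact h ▸ hαZ
    rcases ht.2.eq_or_lt with h' | h'
    · exact h' ▸ hβZ
    exact key α hαZ β hβZ t ⟨h, h'⟩
  have hkerT : ∀ᵐ t ∂(volume.restrict (Ioc α β)), T (u t) = 0 := by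
    have h1 := ae_restrict_of_ae_restrict_of_subset (Ioc_subset_Ioc hαZ.1.1 hβZ.1.2) hD3
    filter_upwards [h1, ae_restrict_mem measurableSet_Ioc] with t t1 t2
    apply t1
    have h2 := hmidZ t (Ioc_subset_Icc_self t2)
    have h3 : S0 + T (X t) = 0 := h2.2
    rwa [hXeq t h2.1] at h3
  have hmid : ∀ᵐ t ∂(volume.restrict (Ioc α β)), ∃ c : ℝ, u t = c • q := by
    filter_upwards [hkerT] with t t1
    exact hqT _ t1
  have hleft : 0 < α → ∃ p : EE 2, p ≠ 0 ∧ (∀ t ∈ Ico 0 α, S t p = 0) ∧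
      ∀ᵐ t ∂(volume.restrict (Ioc 0 α)), ∃ c : ℝ, u t = c • p := by
    intro h0α
    refine hpiece le_rfl h0α hαZ.1.2 isPreconnected_Ico Ioo_subset_Ico_self
      Ico_subset_Icc_self (fun t ht h0 => ?_)
    have htZ : t ∈ Z := ⟨⟨ht.1, ht.2.le.trans hαZ.1.2⟩, h0⟩
    exact absurd ht.2 (not_lt.2 (csInf_le hZcomp.bddBelow htZ))
  have hright : β < 1 → ∃ p : EE 2, p ≠ 0 ∧ (∀ t ∈ Ioc β 1, S t p = 0) ∧
      ∀ᵐ t ∂(volume.restrict (Ioc β 1)), ∃ c : ℝ, u t = c • p := by
    intro hβ1
    refine hpiece hβZ.1.1 hβ1 le_rfl isPreconnected_Ioc Ioo_subset_Ioc_self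
      Ioc_subset_Icc_self (fun t ht h0 => ?_)
    have htZ : t ∈ Z := ⟨⟨hβZ.1.1.trans ht.1.le, ht.2⟩, h0⟩
    exact absurd ht.1 (not_lt.2 (le_csSup hZcomp.bddAbove htZ))
  rcases hαZ.1.1.eq_or_lt with h0α | h0α
  · rcases hβZ.1.2.eq_or_lt with hβ1 | hβ1
    · refine ⟨0, 1, q, q, le_rfl, zero_le_one, le_rfl, htriv 0 q, ?_, htriv 1 q⟩
      rw [h0α, ← hβ1]
      exact hmid
    · obtain ⟨p, hp, hpS, hpu⟩ := hright hβ1
      refine ⟨0, β, p, q, le_rfl, hβZ.1.1, hβ1.le, htriv 0 p, ?_, hpu⟩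
      rw [h0α]
      exact hmid
  · obtain ⟨p₁, hp₁, hp₁S, hp₁u⟩ := hleft h0α
    rcases hβZ.1.2.eq_or_lt with hβ1 | hβ1
    · refine ⟨α, 1, p₁, q, h0α.le, hαZ.1.2, le_rfl, hp₁u, ?_, htriv 1 p₁⟩
      rw [← hβ1]
      exact hmid
    · obtain ⟨p₂, hp₂, hp₂S, hp₂u⟩ := hright hβ1
      rcases hαβ.eq_or_lt with hαβ' | hαβ'
      · refine ⟨α, 1, p₁, p₂, h0α.le, hαZ.1.2, le_rfl, hp₁u, ?_, htriv 1 p₁⟩
        rw [hαβ']
        exact hp₂u
      · -- the outer directions agree
        have hT₁ : T p₁ ≠ 0 ∧ T p₁ p₁ = 0 := by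
          obtain ⟨θ, hθ⟩ := integral_mem_line h0α.le (hii 0 α le_rfl h0α.le hαZ.1.2) hp₁ hp₁u
          have h1 := hdiff 0 α le_rfl h0α.le hαZ.1.2
          rw [hαZ.2, hθ, map_smul] at h1
          have hS0 : S 0 ≠ 0 := by
            intro h0
            have htZ : (0 : ℝ) ∈ Z := ⟨⟨le_rfl, zero_le_one⟩, h0⟩
            exact absurd h0α (not_lt.2 (csInf_le hZcomp.bddBelow htZ))
          have h3 := congrArg (fun B : EE 2 →ₗ[ℝ] EE 2 →ₗ[ℝ] ℝ => B p₁) h1
          simp only [LinearMap.add_apply, LinearMap.smul_apply, LinearMap.zero_apply] at h3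
          rw [hp₁S 0 ⟨le_rfl, h0α⟩, zero_add] at h3
          have hθT : θ • T p₁ ≠ 0 := by
            intro h4
            rw [h4, add_zero] at h1
            exact hS0 h1.symm
          refine ⟨?_, ?_⟩
          · intro h4
            apply hθT
            rw [h4, smul_zero]
          · rcases smul_eq_zero.1 h3.symm with h5 | h5
            · exact absurd (by rw [h5, zero_smul]) hθT
            · exact h5
        have hT₂ : T p₂ ≠ 0 ∧ T p₂ p₂ = 0 := by
          obtain ⟨θ, hθ⟩ := integral_mem_line hβ1.le (hii β 1 hβZ.1.1 hβ1.le le_rfl) hp₂ hp₂u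
          have h1 := hdiff β 1 hβZ.1.1 hβ1.le le_rfl
          rw [hβZ.2, hθ, map_smul, zero_add] at h1
          have hS1 : S 1 ≠ 0 := by
            intro h0
            have htZ : (1 : ℝ) ∈ Z := ⟨⟨zero_le_one, le_rfl⟩, h0⟩
            exact absurd hβ1 (not_lt.2 (le_csSup hZcomp.bddAbove htZ))
          have h3 := hp₂S 1 ⟨hβ1, le_rfl⟩
          rw [h1] at h3 hS1
          have hθ0 : θ ≠ 0 := by
            rintro rfl
            apply hS1
            rw [zero_smul]
          refine ⟨?_, ?_⟩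
          · intro h4
            apply hS1
            rw [h4, smul_zero]
          · rw [LinearMap.smul_apply] at h3
            rcases smul_eq_zero.1 h3 with h5 | h5
            · exact absurd h5 hθ0
            · exact h5
        -- a nonzero vector in the kernel of `T`
        obtain ⟨v, hv0, hTv⟩ : ∃ v : EE 2, v ≠ 0 ∧ T v = 0 := by
          have h1 := ae_restrict_of_ae_restrict_of_subset
            (Ioc_subset_Ioc hαZ.1.1 hβZ.1.2) hu0
          have h2 : ∀ᵐ t ∂(volume.restrict (Ioc α β)), u t ≠ 0 ∧ T (u t) = 0 := by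
            filter_upwards [h1, hkerT] with t t1 t2
            exact ⟨t1, t2⟩
          have h3 : (ae (volume.restrict (Ioc α β))).NeBot := by
            rw [ae_neBot, Ne, Measure.restrict_eq_zero, Real.volume_Ioc]
            simp [hαβ']
          obtain ⟨t, ht⟩ := h2.exists
          exact ⟨u t, ht⟩
        have hc₁ : crs p₁ v ≠ 0 := by
          intro h
          obtain ⟨c, hc⟩ := exists_smul hv0 h
          apply hT₁.1
          rw [hc, map_smul, hTv, smul_zero]
        have hc₂ : crs p₂ v ≠ 0 := by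
          intro h
          obtain ⟨c, hc⟩ := exists_smul hv0 h
          apply hT₂.1
          rw [hc, map_smul, hTv, smul_zero]
        have h4 : crs p₁ v • T p₂ = crs p₂ v • T p₁ := by
          have h5 := congrArg T (cramer p₁ v p₂)
          rw [map_smul, map_add, map_smul, map_smul, hTv, smul_zero, add_zero] at h5
          exact h5
        have h6 : T p₁ p₂ = 0 := by
          have h7 := congrArg (fun B : EE 2 →ₗ[ℝ] EE 2 →ₗ[ℝ] ℝ => B p₂) h4
          simp only [LinearMap.smul_apply] at h7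
          rw [hT₂.2, smul_zero] at h7
          rcases smul_eq_zero.1 h7.symm with h8 | h8
          · exact absurd h8 hc₂
          · exact h8
        have h9 : crs p₂ p₁ = 0 := by
          by_contra hne
          exact hT₁.1 (zero_of_two h6 hT₁.2 hne)
        obtain ⟨c, hc⟩ := exists_smul hp₁ h9
        refine ⟨α, β, p₁, q, h0α.le, hαβ, hβ1.le, hp₁u, hmid, ?_⟩
        filter_upwards [hp₂u] with t ht
        obtain ⟨c', hc'⟩ := ht
        exact ⟨c' * c, by rw [hc', hc, smul_smul]⟩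

end Pool.Agent.CutLoci.H83
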